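import Pool.Agent.X172.GR.Stm

set_option autoImplicit false

namespace Pool.Agent.X176.GR

open Pool.Agent.X172.GR

variable {T : ℕ → Fin 6} {n : ℕ}

theorem Rd_append (i : ℕ) (u w : List Ltr) : Rd T i (u ++ w) ↔ Rd T i u ∧ Rd T (i + u.length) w := by
  induction u generalizing i with
  | nil => simp [Rd]
  | cons a u ih =>
    simp only [List.cons_append, Rd, ih, List.length_cons, and_assoc]
    rw [show i + 1 + u.length = i + (u.length + 1) by omega]

theorem T_mod (hT : Ty n T) (i k : ℕ) : T (i + k * n) = T i := by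
  induction k with
  | zero => simp
  | succ k ih => rw [show i + (k + 1) * n = (i + k * n) + n by ring, hT.per, ih]

theorem T_congr (hT : Ty n T) {i j : ℕ} (h : i % n = j % n) : T i = T j := by
  have hi := T_mod hT (i % n) (i / n)
  have hj := T_mod hT (j % n) (j / n)
  rw [Nat.mod_add_div'] at hi hj
  rw [hi, hj, h]

theorem Rd_congr (hT : Ty n T) {i j : ℕ} (h : i % n = j % n) {w : List Ltr} (hr : Rd T i w) :
    Rd T j w := by
  induction w generalizing i j with
  | nil => trivial
  | cons a w ih =>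
    refine ⟨hr.1.trans (T_congr hT h), ih ?_ hr.2⟩
    rw [Nat.add_mod, h, ← Nat.add_mod]

theorem Rd_get {i : ℕ} {z : List Ltr} (hr : Rd T i z) (p : ℕ) (hp : p < z.length) :
    (z[p]).1 = T (i + p) := by
  induction z generalizing i p with
  | nil => simp at hp
  | cons a z ih =>
    cases p with
    | zero => exact hr.1
    | succ p =>
      have := ih hr.2 p (by simpa using hp)
      simp only [List.getElem_cons_succ]
      rw [this]
      congr 1
      omega

theorem uniq (hn : 4 ≤ n) (hT : Ty n T) {i j : ℕ} {z : List Ltr} (hz : z.length = n)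
    (hi : Rd T i z) (hj : Rd T j z) : i % n = j % n := by
  have hlt : i % n < n := Nat.mod_lt _ (by omega)
  have hdiv := Nat.mod_add_div i n
  have hp : n - 1 - i % n < z.length := by omega
  have h1 := Rd_get hi _ hp
  have h2 := Rd_get hj _ hp
  have h3 : T (i + (n - 1 - i % n)) = 4 := by
    rw [hT.hash]
    refine ⟨i / n + 1, ?_⟩
    rw [Nat.mul_add, mul_one]
    omega
  have h4 : n ∣ j + (n - 1 - i % n) + 1 := by
    rw [← hT.hash, ← h2, h1]
    exact h3
  have h5 : n ∣ i + (n - 1 - i % n) + 1 := (hT.hash _).1 h3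
  have h6 : (i + (n - i % n)) % n = (j + (n - i % n)) % n := by
    rw [show i + (n - i % n) = i + (n - 1 - i % n) + 1 by omega,
      show j + (n - i % n) = j + (n - 1 - i % n) + 1 by omega, Nat.mod_eq_zero_of_dvd h5,
      Nat.mod_eq_zero_of_dvd h4]
  exact Nat.ModEq.add_right_cancel' (n - i % n) h6

theorem t_REL : S_REL := by
  intro n T hn hT u w g hR
  rcases hR with rfl | ⟨q, hq1, hq2, hq⟩ | ⟨h, m, z, z', hu, hw, hz⟩
  · exact Or.inl rfl
  · exact Or.inr (Or.inl ⟨q, hq1.trans (List.suffix_cons _ _), hq2.trans (List.suffix_cons _ _), hq⟩)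
  · obtain ⟨v, hv, hvn, hvm, hzv, hzl, hc⟩ := hu
    obtain ⟨v', hv', hvn', hvm', hzv', hzl', hc'⟩ := hw
    rcases h with _ | a
    · -- the readable case
      obtain ⟨-, rfl⟩ | ⟨a, y, ha, -⟩ := hc
      swap
      · cases ha
      obtain ⟨-, rfl⟩ | ⟨a, y, ha, -⟩ := hc'
      swap
      · cases ha
      obtain rfl | ⟨ha, -⟩ := hz
      swap
      · cases ha
      -- reading positions
      have pos : ∀ i j, Rd T i u → Rd T j w → i % n = j % n := by
        intro i j hi hj
        obtain ⟨x, rfl⟩ := hzv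
        obtain ⟨x', rfl⟩ := hzv'
        have h1 := ((Rd_append _ _ _).1 hi).2
        have h2 := ((Rd_append _ _ _).1 hj).2
        have h3 := uniq hn hT hzl h1 h2
        rw [List.length_append, hzl] at hvm hvm'
        have h4 : x.length % n = x'.length % n := by
          rw [Nat.add_mod_right] at hvm hvm'
          rw [hvm, hvm']
        exact Nat.ModEq.add_right_cancel (show x.length ≡ x'.length [MOD n] from h4) h3
      have tr1 : Readable T (g :: u) → Readable T (g :: w) := by
        rintro ⟨i, hi1, hi2⟩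
        obtain ⟨j, hj⟩ := hv'
        exact ⟨i, hi1, Rd_congr hT (pos _ _ hi2 hj).symm hj⟩
      have tr2 : Readable T (g :: w) → Readable T (g :: u) := by
        rintro ⟨i, hi1, hi2⟩
        obtain ⟨j, hj⟩ := hv
        exact ⟨i, hi1, Rd_congr hT (pos _ _ hj hi2) hj⟩
      by_cases hg : Readable T (g :: u)
      · refine Or.inr (Or.inr ⟨none, (m + 1) % n, z, z, ?_, ?_, Or.inl rfl⟩)
        · refine ⟨g :: u, hg, by simp only [List.length_cons]; omega, ?_,
            hzv.trans (List.suffix_cons _ _), hzl, Or.inl ⟨rfl, rfl⟩⟩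
          rw [List.length_cons, ← hvm]
          simp [Nat.add_mod]
        · refine ⟨g :: w, tr1 hg, by simp only [List.length_cons]; omega, ?_,
            hzv'.trans (List.suffix_cons _ _), hzl, Or.inl ⟨rfl, rfl⟩⟩
          rw [List.length_cons, ← hvm']
          simp [Nat.add_mod]
      · refine Or.inr (Or.inr ⟨some g, m, z, z, ?_, ?_, Or.inl rfl⟩)
        · exact ⟨u, hv, hvn, hvm, hzv, hzl, Or.inr ⟨g, [], rfl, rfl, hg⟩⟩
        · exact ⟨w, hv', hvn', hvm', hzv', hzl, Or.inr ⟨g, [], rfl, rfl, fun h => hg (tr2 h)⟩⟩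
    · obtain ⟨ha, -⟩ | ⟨b, y, ha, rfl, hna⟩ := hc
      · cases ha
      obtain ⟨ha', -⟩ | ⟨b', y', ha', rfl, hna'⟩ := hc'
      · cases ha'
      exact Or.inr (Or.inr ⟨some a, m, z, z',
        ⟨v, hv, hvn, hvm, hzv, hzl, Or.inr ⟨b, g :: y, ha, rfl, hna⟩⟩,
        ⟨v', hv', hvn', hvm', hzv', hzl', Or.inr ⟨b', g :: y', ha', rfl, hna'⟩⟩, hz⟩)

end Pool.Agent.X176.GR
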